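import Pool.Graph.R_seed8.TH105.N13.Geo

/-! Absorbing several points at the left boundary of a region of rows, the multiplicities being set
to zero one after the other. -/

set_option autoImplicit false

namespace Pool.Agent.H879.Nine

open Finset Pool.Agent.TH176.Nag Pool.Agent.TH603.Sur Pool.Agent.TH105.N13

theorem LM_zero {K : Type*} [Field K] (f : (ℤ × ℤ) →₀ K) (x y : K) : LM f x y 0 := by
  apply LM_of_mono
  intro a b hab
  omega

/-- a point of multiplicity zero gives way to an absorbed point -/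
theorem Emp_update {ι : Type} [DecidableEq ι] {w : ι → ℕ} (v : ℕ) {S S' : Set (ℤ × ℤ)}
    (hfin : S.Finite) (hS0 : ∀ m ∈ S, 0 ≤ m.2) (α : ℤ → ℤ) (hα : ∀ m ∈ S, α m.2 ≤ m.1)
    (hSS' : ∀ m ∈ S, (v : ℤ) ≤ m.2 + (m.1 - α m.2) → m ∈ S') {i : ι} (hi : w i = 0)
    (h : Emp w S') : Emp (Function.update w i v) S := by
  have h1 : Emp (fun j : {j : ι // j ≠ i} => w j) S' := by
    obtain ⟨K, _, _, x, y, hx, hy, hf⟩ := h
    refine ⟨K, inferInstance, inferInstance, fun j => x j, fun j => y j, fun j => hx j,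
      fun j => hy j, fun f hfS hfL => hf f hfS fun j => ?_⟩
    by_cases hj : j = i
    · subst hj
      rw [hi]
      exact LM_zero _ _ _
    · exact hfL ⟨j, hj⟩
  have h2 := Pool.Agent.TH102.DP.Emp_absorb v hfin hS0 α hα hSS' h1
  refine Emp_emb (fun o : Option {j : ι // j ≠ i} => o.elim i (fun j => (j : ι))) ?_ ?_ h2
  · rintro (_ | ⟨a, ha⟩) (_ | ⟨b, hb⟩) hab
    · rfl
    · exact absurd hab.symm hb
    · exact absurd hab ha
    · simp only [Option.elim_some] at hab
      subst hab
      rfl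
  · rintro (_ | ⟨a, ha⟩)
    · simp
    · simp [Function.update_of_ne ha]

theorem cond_update {ι : Type} [Fintype ι] [DecidableEq ι] {w : ι → ℕ} {i : ι} (hi : w i = 0)
    (v : ℕ) : cond (Function.update w i v) = cond w + (v + 1).choose 2 := by
  unfold Pool.Agent.TH603.Sur.cond
  rw [← Finset.add_sum_erase _ _ (mem_univ i), ← Finset.add_sum_erase _ (fun j => (w j + 1).choose 2)
    (mem_univ i), Function.update_self, hi]
  have : ∑ j ∈ univ.erase i, (Function.update w i v j + 1).choose 2 =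
      ∑ j ∈ univ.erase i, (w j + 1).choose 2 := by
    refine sum_congr rfl fun j hj => ?_
    rw [Function.update_of_ne (ne_of_mem_erase hj)]
  rw [this]
  simp
  ring

/-- absorbing one point at the left boundary of a region of rows: independence -/
theorem Sur_update {ι : Type} [Fintype ι] [DecidableEq ι] {w : ι → ℕ} {β lam : ℝ} {L : ℤ → ℤ}
    {H E : ℕ} {i : ι} (hi : w i = 0) (hEH : E ≤ H)
    (hL : ∀ y : ℤ, 0 ≤ y → y < E → (E : ℤ) - y ≤ L y)
    (h : Sur w (RR β lam (fun y => L y - max ((E : ℤ) - y) 0) H)) :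
    Sur (Function.update w i E) (RR β lam L H) := by
  classical
  obtain ⟨T, hT1, hT2, hT3⟩ := h
  let C0 : Finset (ℤ × ℤ) := (range E).biUnion fun y =>
    (Finset.Ioc (⌊β + lam * ((y : ℤ) : ℝ)⌋ - L y)
      (⌊β + lam * ((y : ℤ) : ℝ)⌋ - L y + ((E - y : ℕ) : ℤ))).image fun x => ((x, (y : ℤ)) : ℤ × ℤ)
  have hC0 : ∀ p : ℤ × ℤ, p ∈ C0 → 0 ≤ p.2 ∧ p.2 < E ∧ ⌊β + lam * p.2⌋ - L p.2 < p.1 ∧
      p.1 ≤ ⌊β + lam * p.2⌋ - L p.2 + (E - p.2) := by
    intro p hp
    simp only [C0, mem_biUnion, mem_image, mem_range, Finset.mem_Ioc] at hp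
    obtain ⟨y, hy, x, ⟨hx1, hx2⟩, rfl⟩ := hp
    rw [Nat.cast_sub hy.le] at hx2
    exact ⟨by simp, by simpa using hy, hx1, hx2⟩
  have hcard : C0.card = (E + 1).choose 2 := by
    simp only [C0]
    rw [card_biUnion]
    · have h1 : ∀ y ∈ range E, ((Finset.Ioc (⌊β + lam * ((y : ℤ) : ℝ)⌋ - L y)
          (⌊β + lam * ((y : ℤ) : ℝ)⌋ - L y + ((E - y : ℕ) : ℤ))).image
          fun x => ((x, (y : ℤ)) : ℤ × ℤ)).card = E - y := by
        intro y _
        rw [card_image_of_injective _ (fun a b h => (Prod.mk.inj h).1), Int.card_Ioc]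
        omega
      rw [sum_congr rfl h1]
      exact sum_range_sub E E le_rfl
    · intro a _ b _ hne
      rw [Function.onFun, disjoint_left]
      intro p hp hp'
      rw [mem_image] at hp hp'
      obtain ⟨x, _, rfl⟩ := hp
      obtain ⟨x', _, h⟩ := hp'
      have := (Prod.mk.inj h).2
      exact hne (by exact_mod_cast this.symm)
  have hT : ∀ p ∈ T, 0 ≤ p.2 ∧ p.2 ≤ H ∧ ⌊β + lam * p.2⌋ - (L p.2 - max ((E : ℤ) - p.2) 0) < p.1 ∧
      p.1 ≤ ⌊β + lam * p.2⌋ := fun p hp => hT1 (mem_coe.2 hp)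
  have hdisj : Disjoint T C0 := by
    rw [disjoint_left]
    intro p hp hp'
    have h1 := hC0 p hp'
    have h2 := (hT p hp).2.2.1
    rw [max_eq_left (by omega)] at h2
    omega
  refine ⟨T ∪ C0, ?_, ?_, ?_⟩
  · intro p hp
    rw [mem_coe, mem_union] at hp
    rcases hp with hp | hp
    · obtain ⟨h1, h2, h3, h4⟩ := hT p hp
      refine ⟨h1, h2, ?_, h4⟩
      have := le_max_right ((E : ℤ) - p.2) 0
      omega
    · obtain ⟨h1, h2, h3, h4⟩ := hC0 p hp
      have h5 := hL p.2 h1 h2
      exact ⟨h1, by omega, h3, by omega⟩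
  · rw [card_union_of_disjoint hdisj, hT2, hcard, cond_update hi]
  · refine Emp_update E (Finset.finite_toSet _) (fun m hm => ?_)
      (fun y => ⌊β + lam * y⌋ - L y + 1) (fun m hm => ?_) (fun m hm hEm => ?_) hi hT3
    · rw [mem_coe, mem_union] at hm
      rcases hm with hm | hm
      · exact (hT m hm).1
      · exact (hC0 m hm).1
    · rw [mem_coe, mem_union] at hm
      rcases hm with hm | hm
      · obtain ⟨h1, h2, h3, h4⟩ := hT m hm
        have := le_max_right ((E : ℤ) - m.2) 0
        omega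
      · have := (hC0 m hm).2.2.1
        omega
    · rw [mem_coe, mem_union] at hm
      rw [mem_coe]
      rcases hm with hm | hm
      · exact hm
      · have h1 := (hC0 m hm).2.2.2
        omega

/-- absorbing the points of a finite set -/
theorem Sur_absorb {ι : Type} [Fintype ι] [DecidableEq ι] (w : ι → ℕ) {β lam : ℝ} {H : ℕ}
    (A : Finset ι) : ∀ (L : ℤ → ℤ), (∀ i ∈ A, w i ≤ H) →
    (∀ y : ℤ, 0 ≤ y → y ≤ H → ∑ i ∈ A, max ((w i : ℤ) - y) 0 ≤ L y) →
    Sur (fun i => if i ∈ A then 0 else w i)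
      (RR β lam (fun y => L y - ∑ i ∈ A, max ((w i : ℤ) - y) 0) H) →
    Sur w (RR β lam L H) := by
  induction A using Finset.induction_on with
  | empty =>
    intro L _ _ h
    simpa using h
  | insert a A ha ih =>
    intro L hH hL h
    refine ih L (fun i hi => hH i (mem_insert_of_mem hi)) (fun y hy hyH => ?_) ?_
    · refine le_trans ?_ (hL y hy hyH)
      rw [sum_insert ha]
      have := le_max_right ((w a : ℤ) - y) 0
      omega
    · have e : (fun i => if i ∈ A then 0 else w i) =
          Function.update (fun i => if i ∈ insert a A then 0 else w i) a (w a) := by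
        funext i
        by_cases hi : i = a
        · subst hi
          simp [ha]
        · rw [Function.update_of_ne hi]
          simp [hi]
      rw [e]
      refine Sur_update (by simp) (hH a (mem_insert_self a A)) (fun y hy hyE => ?_) ?_
      · have h1 := hL y hy (by have := hH a (mem_insert_self a A); omega)
        rw [sum_insert ha, max_eq_left (by omega : (0 : ℤ) ≤ (w a : ℤ) - y)] at h1
        omega
      · convert h using 3
        rw [sum_insert ha]
        ring

end Pool.Agent.H879.Nine
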