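import Pool.Agent.H879.Nine.Strip
import Pool.Graph.R_seed8.TH469.SX.Slab

/-! Counting the long columns of a strip in the direction `(1, q)`. -/

set_option autoImplicit false

namespace Pool.Agent.H879.Nine

open Finset Pool.Agent.TH176.Nag Pool.Agent.TH603.Sur Pool.Agent.TH105.N13

/-- independence: flatten along `(1, q)` and put all points on a line -/
theorem Sur_cols {ι : Type} [Fintype ι] {w : ι → ℕ} {S : Set (ℤ × ℤ)} (q : ℕ)
    (hS : ∀ k : ℕ, (∃ i, k < w i) → ∃ B : Finset ℤ, ∑ i, (w i - k) ≤ B.card ∧ ∀ c ∈ B,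
      ∃ X0 : ℤ, ∀ j : ℕ, j ≤ k → ((X0 + j, q * (X0 + j) - c) : ℤ × ℤ) ∈ S) :
    Sur w S := by
  refine Pool.Agent.TH469.SX.Sur_slabs' (q : ℤ) (-1) 0 (-1) (by ring) fun k hk => ?_
  obtain ⟨B, h1, h2⟩ := hS k hk
  refine ⟨B, h1, fun c hc => ?_⟩
  obtain ⟨X0, h3⟩ := h2 c hc
  refine ⟨X0, fun s hs1 hs2 => ?_⟩
  obtain ⟨j, hj⟩ := Int.eq_ofNat_of_zero_le (show 0 ≤ s - X0 by linarith)
  have h4 := h3 j (by omega)
  have e : ((X0 + j, (q : ℤ) * (X0 + j) - c) : ℤ × ℤ) = (0 * c - -1 * s, -1 * c + (q : ℤ) * s) := by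
    have : s = X0 + j := by linarith
    rw [this]
    ext
    · simp only; ring
    · simp only; ring
  rw [← e]
  exact h4

variable {d : ℕ} {x0 σ : ℝ} {W : ℤ → ℤ} {q : ℕ}

theorem mem_strip (hq : 0 < q) {X c : ℤ} (h1 : 0 ≤ q * X - c) (h2 : 3 * (q * X - c) < d)
    (h3 : σ * ((q * X - c : ℤ) : ℝ) - q * (W (q * X - c) : ℝ) ≤ c - q * x0)
    (h4 : c - q * x0 < σ * ((q * X - c : ℤ) : ℝ)) :
    ((X, q * X - c) : ℤ × ℤ) ∈ Strip d ((1 + σ) / q) x0 W := by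
  have hq' : (0 : ℝ) < q := by exact_mod_cast hq
  refine ⟨h1, h2, ?_, ?_⟩
  · simp only
    rw [← sub_nonneg]
    have e : (X : ℝ) - (x0 + (1 + σ) / q * ((q * X - c : ℤ) : ℝ) - (W (q * X - c) : ℝ)) =
        ((c - q * x0) - (σ * ((q * X - c : ℤ) : ℝ) - q * (W (q * X - c) : ℝ))) / q := by
      push_cast
      field_simp
      ring
    rw [e]
    exact div_nonneg (by linarith) hq'.le
  · simp only
    rw [← sub_pos]
    have e : x0 + (1 + σ) / q * ((q * X - c : ℤ) : ℝ) - (X : ℝ) =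
        (σ * ((q * X - c : ℤ) : ℝ) - (c - q * x0)) / q := by
      push_cast
      field_simp
      ring
    rw [e]
    exact div_pos (by linarith) hq'

/-- the columns starting in the first `q` rows -/
theorem cols_low (hq : 0 < q) (hσ : 0 ≤ σ) (k : ℕ) (hd : 3 * (q * (k + 1)) < d + 3)
    (hmono : ∀ r j : ℕ, r < q → j ≤ k → σ * ((r + q * j : ℕ) : ℝ) - q * (W ((r + q * j : ℕ) : ℤ) : ℝ) ≤
      σ * ((r + q * k : ℕ) : ℝ) - q * (W ((r + q * k : ℕ) : ℤ) : ℝ))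
    (hW : ∀ r < q, 0 ≤ W ((r + q * k : ℕ) : ℤ)) :
    ∃ B : Finset ℤ, ∑ r ∈ range q, W ((r + q * k : ℕ) : ℤ) -
        (⌈q * x0 + σ * (q * (k + 1) - 1)⌉ - ⌈(q : ℝ) * x0⌉) ≤ (B.card : ℤ) ∧
      (∀ c ∈ B, c < ⌈(q : ℝ) * x0⌉) ∧
      ∀ c ∈ B, ∃ X0 : ℤ, ∀ j : ℕ, j ≤ k →
        ((X0 + j, q * (X0 + j) - c) : ℤ × ℤ) ∈ Strip d ((1 + σ) / q) x0 W := by
  classical
  obtain ⟨N0, hN0⟩ : ∃ N0 : ℤ, N0 = ⌈(q : ℝ) * x0⌉ := ⟨_, rfl⟩
  obtain ⟨N1, hN1⟩ : ∃ N1 : ℤ, N1 = ⌈q * x0 + σ * (q * (k + 1) - 1)⌉ := ⟨_, rfl⟩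
  have hqR : (1 : ℝ) ≤ q := by exact_mod_cast hq
  have hqZ : (0 : ℤ) < q := by exact_mod_cast hq
  have hN : N0 ≤ N1 := by
    rw [hN0, hN1]
    apply Int.ceil_mono
    have h1 : (0 : ℝ) ≤ q * (k + 1) - 1 := by
      have : (0 : ℝ) ≤ k := Nat.cast_nonneg k
      nlinarith
    have := mul_nonneg hσ h1
    linarith
  rw [← hN0, ← hN1]
  let f : (Σ _ : ℕ, ℕ) → ℤ := fun p =>
    N1 - q * W ((p.1 + q * k : ℕ) : ℤ) + (-(p.1 : ℤ) - N1) % q + q * p.2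
  let D : Finset (Σ _ : ℕ, ℕ) := (range q).sigma fun r => range (W ((r + q * k : ℕ) : ℤ)).toNat
  have hf : ∀ p ∈ D, p.1 < q ∧ (p.2 : ℤ) < W ((p.1 + q * k : ℕ) : ℤ) := by
    intro p hp
    simp only [D, mem_sigma, mem_range] at hp
    exact ⟨hp.1, by omega⟩
  have hf2 : ∀ p : (Σ _ : ℕ, ℕ), f p =
      q * ((p.2 : ℤ) - W ((p.1 + q * k : ℕ) : ℤ) - (-(p.1 : ℤ) - N1) / q) - p.1 := by
    intro p
    have h1 := Int.emod_add_mul_ediv (-(p.1 : ℤ) - N1) q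
    simp only [f]
    linear_combination h1
  have hinj : Set.InjOn f ↑D := by
    rintro ⟨r, i⟩ hp ⟨r', i'⟩ hp' he
    have h1 := hf _ (mem_coe.1 hp)
    have h2 := hf _ (mem_coe.1 hp')
    have h3 := hf2 ⟨r, i⟩
    have h4 := hf2 ⟨r', i'⟩
    rw [he] at h3
    simp only at h1 h2 h3 h4
    have h5 : r = r' := by
      have h6 : (q : ℤ) ∣ ((r : ℤ) - r') := by
        refine ⟨((i : ℤ) - W ((r + q * k : ℕ) : ℤ) - (-(r : ℤ) - N1) / q) -
          ((i' : ℤ) - W ((r' + q * k : ℕ) : ℤ) - (-(r' : ℤ) - N1) / q), ?_⟩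
        linear_combination h3 - h4
      obtain ⟨z, hz⟩ := h6
      have hz0 : z = 0 := by
        by_contra hne
        rcases lt_or_gt_of_ne hne with h0 | h0
        · have : (q : ℤ) * z ≤ q * (-1) := mul_le_mul_of_nonneg_left (by omega) hqZ.le
          omega
        · have : (q : ℤ) * 1 ≤ q * z := mul_le_mul_of_nonneg_left (by omega) hqZ.le
          omega
      rw [hz0, mul_zero] at hz
      omega
    subst h5
    have h6 : (q : ℤ) * ((i : ℤ) - i') = 0 := by linear_combination h4 - h3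
    rcases mul_eq_zero.1 h6 with h7 | h7
    · omega
    · have : i = i' := by omega
      rw [this]
  refine ⟨(D.image f).filter (· < N0), ?_, fun c hc => (mem_filter.1 hc).2, ?_⟩
  · have h1 : (D.image f).card = D.card := card_image_of_injOn hinj
    have h2 : (D.card : ℤ) = ∑ r ∈ range q, W ((r + q * k : ℕ) : ℤ) := by
      simp only [D, card_sigma, card_range]
      push_cast
      refine sum_congr rfl fun r hr => ?_
      have := hW r (mem_range.1 hr)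
      push_cast at this
      omega
    have h3 : (D.image f).filter (fun c => ¬ c < N0) ⊆ Finset.Ico N0 N1 := by
      intro c hc
      rw [mem_filter, mem_image] at hc
      obtain ⟨⟨p, hp, rfl⟩, hc⟩ := hc
      rw [Finset.mem_Ico]
      refine ⟨by omega, ?_⟩
      obtain ⟨-, h4⟩ := hf p hp
      have h5 : (-(p.1 : ℤ) - N1) % q < q := Int.emod_lt_of_pos _ hqZ
      have h6 : (q : ℤ) * ((p.2 : ℤ) - W ((p.1 + q * k : ℕ) : ℤ)) ≤ q * (-1) :=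
        mul_le_mul_of_nonneg_left (by omega) hqZ.le
      simp only [f]
      linarith
    have h4 := card_le_card h3
    rw [Int.card_Ico] at h4
    have h5 := card_filter_add_card_filter_not (s := D.image f) (fun c => c < N0)
    omega
  · intro c hc
    rw [mem_filter, mem_image] at hc
    obtain ⟨⟨⟨r, i⟩, hp, rfl⟩, hc⟩ := hc
    obtain ⟨hr, hi⟩ := hf _ hp
    have h2 := hf2 ⟨r, i⟩
    simp only at hr hi h2
    refine ⟨(i : ℤ) - W ((r + q * k : ℕ) : ℤ) - (-(r : ℤ) - N1) / q, fun j hj => ?_⟩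
    have e : (q : ℤ) * ((i : ℤ) - W ((r + q * k : ℕ) : ℤ) - (-(r : ℤ) - N1) / q + j) - f ⟨r, i⟩ =
        ((r + q * j : ℕ) : ℤ) := by
      rw [h2]; push_cast; ring
    have hξ1 : (f ⟨r, i⟩ : ℝ) < q * x0 := by
      rw [hN0, Int.lt_ceil] at hc
      exact hc
    have hξ2 : q * x0 + σ * (q * (k + 1) - 1) - q * (W ((r + q * k : ℕ) : ℤ) : ℝ) ≤ (f ⟨r, i⟩ : ℝ) := by
      have h3 : N1 - q * W ((r + q * k : ℕ) : ℤ) ≤ f ⟨r, i⟩ := by
        have h4 : 0 ≤ (-(r : ℤ) - N1) % q := Int.emod_nonneg _ hqZ.ne'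
        have h5 : (0 : ℤ) ≤ q * i := by positivity
        simp only [f]
        linarith
      have h4 := Int.le_ceil (q * x0 + σ * (q * (k + 1) - 1))
      rw [← hN1] at h4
      have h5 : ((N1 - q * W ((r + q * k : ℕ) : ℤ) : ℤ) : ℝ) ≤ (f ⟨r, i⟩ : ℝ) := by exact_mod_cast h3
      push_cast at h5 ⊢
      linarith
    have hrj : r + q * j + 1 ≤ q * (k + 1) := by
      have : q * j ≤ q * k := Nat.mul_le_mul_left q hj
      have : q * (k + 1) = q * k + q := by ring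
      omega
    refine mem_strip hq ?_ ?_ ?_ ?_
    · rw [e]; positivity
    · rw [e]
      push_cast
      have : 3 * (r + q * j) < d := by omega
      exact_mod_cast this
    · rw [e]
      refine (hmono r j hr hj).trans ?_
      have h3 : σ * ((r + q * k : ℕ) : ℝ) ≤ σ * (q * (k + 1) - 1) := by
        apply mul_le_mul_of_nonneg_left _ hσ
        have : r + q * k + 1 ≤ q * (k + 1) := by
          have : q * (k + 1) = q * k + q := by ring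
          omega
        have h4 : ((r + q * k + 1 : ℕ) : ℝ) ≤ ((q * (k + 1) : ℕ) : ℝ) := by exact_mod_cast this
        push_cast at h4 ⊢
        linarith
      linarith
    · rw [e]
      have h3 : 0 ≤ σ * (((r + q * j : ℕ) : ℤ) : ℝ) := mul_nonneg hσ (by positivity)
      linarith

/-- the columns starting higher -/
theorem cols_high (hq : 0 < q) (hσ : 0 < σ) (k : ℕ) (v : ℝ) (hv : 3 * v < d)
    (hW : ∀ (j : ℕ) (y : ℤ), j ≤ k → (q : ℤ) * j ≤ y → (y : ℝ) ≤ v → σ * (j + 1) ≤ (W y : ℝ)) :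
    ∀ c ∈ Finset.Ico ⌈(q : ℝ) * x0⌉ (⌊q * x0 + σ * (v - q * (k + 1))⌋ + 1), ∃ X0 : ℤ, ∀ j : ℕ, j ≤ k →
        ((X0 + j, q * (X0 + j) - c) : ℤ × ℤ) ∈ Strip d ((1 + σ) / q) x0 W := by
  intro c hc
  have hqR : (0 : ℝ) < q := by exact_mod_cast hq
  rw [Finset.mem_Ico, Int.ceil_le, Int.lt_add_one_iff, Int.le_floor] at hc
  obtain ⟨hc1, hc2⟩ := hc
  obtain ⟨ξ, hξ⟩ : ∃ ξ : ℝ, ξ = c - q * x0 := ⟨_, rfl⟩
  have hξ0 : 0 ≤ ξ := by rw [hξ]; linarith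
  have hξ1 : ξ / σ ≤ v - q * (k + 1) := by
    rw [div_le_iff₀ hσ]
    rw [hξ]
    linarith
  have hξσ : ξ / σ * σ = ξ := div_mul_cancel₀ _ hσ.ne'
  obtain ⟨X0, hX0⟩ : ∃ X0 : ℤ, X0 = ⌊(c + ξ / σ) / q⌋ + 1 := ⟨_, rfl⟩
  have h1 : ξ / σ < q * (X0 : ℝ) - c := by
    have h2 := Int.lt_floor_add_one ((c + ξ / σ) / q)
    rw [div_lt_iff₀ hqR] at h2
    rw [hX0]
    push_cast
    linarith
  have h2 : (q : ℝ) * X0 - c ≤ ξ / σ + q := by
    have h3 := Int.floor_le ((c + ξ / σ) / q)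
    rw [le_div_iff₀ hqR] at h3
    rw [hX0]
    push_cast
    linarith
  refine ⟨X0, fun j hj => ?_⟩
  have hj0 : (0 : ℝ) ≤ j := Nat.cast_nonneg j
  have hjk : (j : ℝ) ≤ k := by exact_mod_cast hj
  have hqj : (q : ℝ) * j ≤ q * k := mul_le_mul_of_nonneg_left hjk hqR.le
  have hqj0 : (0 : ℝ) ≤ q * j := by positivity
  have hξσ0 : 0 ≤ ξ / σ := div_nonneg hξ0 hσ.le
  obtain ⟨y, hy⟩ : ∃ y : ℤ, y = q * (X0 + j) - c := ⟨_, rfl⟩
  have hyR : (y : ℝ) = (q * (X0 : ℝ) - c) + q * j := by rw [hy]; push_cast; ring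
  have hy1 : (q : ℤ) * j ≤ y := by
    have : ((q * j : ℤ) : ℝ) ≤ (y : ℝ) := by
      rw [hyR]; push_cast; linarith
    exact_mod_cast this
  have hy2 : (y : ℝ) ≤ v := by
    rw [hyR]
    linarith
  have hy3 := hW j y hj hy1 hy2
  have hy4 : σ * y ≤ ξ + σ * (q * (j + 1)) := by
    have h5 : (y : ℝ) ≤ ξ / σ + q * (j + 1) := by rw [hyR]; linarith
    have h6 := mul_le_mul_of_nonneg_left h5 hσ.le
    rw [mul_add, mul_comm σ (ξ / σ), hξσ] at h6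
    exact h6
  refine mem_strip hq ?_ ?_ ?_ ?_
  · rw [← hy]
    have : (0 : ℤ) ≤ q * j := by positivity
    linarith
  · rw [← hy]
    have : ((3 * y : ℤ) : ℝ) < ((d : ℤ) : ℝ) := by push_cast; linarith
    exact_mod_cast this
  · rw [← hy, ← hξ]
    have h5 : (q : ℝ) * (σ * (j + 1)) ≤ q * (W y : ℝ) := mul_le_mul_of_nonneg_left hy3 hqR.le
    nlinarith
  · rw [← hy, ← hξ]
    have h5 : ξ / σ < y := by rw [hyR]; linarith
    rw [div_lt_iff₀ hσ] at h5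
    linarith

/-- the number of long columns -/
theorem cols (hq : 0 < q) (hσ : 0 < σ) (k : ℕ) (hd : 3 * (q * (k + 1)) < d + 3)
    (hmono : ∀ r j : ℕ, r < q → j ≤ k → σ * ((r + q * j : ℕ) : ℝ) - q * (W ((r + q * j : ℕ) : ℤ) : ℝ) ≤
      σ * ((r + q * k : ℕ) : ℝ) - q * (W ((r + q * k : ℕ) : ℤ) : ℝ))
    (hW0 : ∀ r < q, 0 ≤ W ((r + q * k : ℕ) : ℤ)) (v : ℝ) (hv : 3 * v < d)
    (hW : ∀ (j : ℕ) (y : ℤ), j ≤ k → (q : ℤ) * j ≤ y → (y : ℝ) ≤ v → σ * (j + 1) ≤ (W y : ℝ))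
    {C : ℕ} (hC : (C : ℝ) ≤ ∑ r ∈ range q, (W ((r + q * k : ℕ) : ℤ) : ℝ) +
      σ * (v - 2 * (q * (k + 1)) + 1)) :
    ∃ B : Finset ℤ, C ≤ B.card ∧ ∀ c ∈ B, ∃ X0 : ℤ, ∀ j : ℕ, j ≤ k →
        ((X0 + j, q * (X0 + j) - c) : ℤ × ℤ) ∈ Strip d ((1 + σ) / q) x0 W := by
  classical
  obtain ⟨B1, h1, h2, h3⟩ := cols_low (x0 := x0) hq hσ.le k hd hmono hW0
  have h4 := cols_high (x0 := x0) (W := W) hq hσ k v hv hW
  refine ⟨B1 ∪ Finset.Ico ⌈(q : ℝ) * x0⌉ (⌊q * x0 + σ * (v - q * (k + 1))⌋ + 1), ?_, ?_⟩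
  · rw [card_union_of_disjoint (by
      rw [disjoint_left]
      intro c hc hc'
      have h5 := h2 c hc
      rw [Finset.mem_Ico] at hc'
      omega), Int.card_Ico]
    have h6 := Int.ceil_lt_add_one (q * x0 + σ * (q * (k + 1) - 1))
    have h7 := Int.lt_floor_add_one (q * x0 + σ * (v - q * (k + 1)))
    have h8 : (C : ℝ) < ((∑ r ∈ range q, W ((r + q * k : ℕ) : ℤ) -
        ⌈q * x0 + σ * (q * (k + 1) - 1)⌉ + (⌊q * x0 + σ * (v - q * (k + 1))⌋ + 1) + 1 : ℤ) : ℝ) := by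
      push_cast
      push_cast at hC
      nlinarith
    have h9 : (C : ℤ) < (∑ r ∈ range q, W ((r + q * k : ℕ) : ℤ) -
        ⌈q * x0 + σ * (q * (k + 1) - 1)⌉ + (⌊q * x0 + σ * (v - q * (k + 1))⌋ + 1) + 1 : ℤ) := by
      exact_mod_cast h8
    omega
  · intro c hc
    rcases mem_union.1 hc with hc | hc
    · exact h3 c hc
    · exact h4 c hc

end Pool.Agent.H879.Nine
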