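import Pool.Agent.H879.Nine.Num
import Pool.Graph.R_seed8.TH603.Sur.Main

/-! The criteria in a closed form, and the passage to the systems of plane curves. -/

set_option autoImplicit false

namespace Pool.Agent.H879.Nine

open Finset Pool.Agent.TH176.Nag Pool.Agent.TH603.Sur Pool.Agent.TH105.N13 Pool.Agent.H932R3

section

variable {d : ℕ} {ι : Type} [Fintype ι] [DecidableEq ι] {m : ι → ℕ} {A : Finset ι}

omit [Fintype ι] [DecidableEq ι] in
theorem Wz_plateau (hA : A.card = 9) {μ : ℕ} (hμ : ∀ i ∈ A, μ ≤ m i) {y : ℤ} (hy : y ≤ μ) :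
    Wz d m A y = 3 * (d : ℤ) - ((∑ i ∈ A, m i : ℕ) : ℤ) := by
  unfold Wz
  have h1 : ∑ i ∈ A, max ((m i : ℤ) - y) 0 = ∑ i ∈ A, ((m i : ℤ) - y) := by
    refine sum_congr rfl fun i hi => ?_
    have := hμ i hi
    exact max_eq_left (by omega)
  rw [h1, sum_sub_distrib, sum_const, hA]
  push_cast
  ring

/-- **third criterion**: nine points of large multiplicities -/
theorem Sur_crit_nine {M μ : ℕ} (hcard : A.card = 9) (hA : ∀ i ∈ A, 3 * m i ≤ d)
    (hμ : ∀ i ∈ A, μ ≤ m i) (hM : ∀ i, i ∉ A → m i ≤ M) (hM0 : 1 ≤ M) (hMμ : M ≤ μ)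
    (hδ : ∑ i ∈ A, m i < 3 * d)
    (hmain : 3 * ((M : ℤ) + 1) ^ 2 * ((∑ i ∈ univ \ A, m i : ℕ) : ℤ) ≤
      M * (3 * (d : ℤ) - ((∑ i ∈ A, m i : ℕ) : ℤ)) * ((d : ℤ) + 3 * μ - 3 * M + 9)) :
    Sur m (TZ d) := by
  obtain ⟨δ, hδe⟩ : ∃ δ : ℤ, δ = 3 * (d : ℤ) - ((∑ i ∈ A, m i : ℕ) : ℤ) := ⟨_, rfl⟩
  have hδ0 : 0 < δ := by rw [hδe]; have : ((∑ i ∈ A, m i : ℕ) : ℤ) < 3 * d := by exact_mod_cast hδ
                         linarith
  have hμd : 3 * μ < d := by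
    by_contra hcon
    push Not at hcon
    have h1 : A.card • μ ≤ ∑ i ∈ A, m i := Finset.card_nsmul_le_sum _ _ _ hμ
    rw [hcard, smul_eq_mul] at h1
    omega
  obtain ⟨q, hq⟩ : ∃ q : ℕ, q = (μ + 1) / (M + 1) := ⟨_, rfl⟩
  have hq1 : q * (M + 1) ≤ μ + 1 := by rw [hq]; exact Nat.div_mul_le_self _ _
  have hq2 : μ + 1 < (q + 1) * (M + 1) := by
    have h1 := Nat.div_add_mod (μ + 1) (M + 1)
    have h2 := Nat.mod_lt (μ + 1) (by omega : M + 1 > 0)
    rw [← hq] at h1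
    have h3 : (q + 1) * (M + 1) = (M + 1) * q + (M + 1) := by ring
    omega
  have hq0 : 0 < q := by
    rw [hq]
    exact Nat.div_pos (by omega) (by omega)
  have hqM : q * M + q ≤ μ + 1 := by
    have : q * (M + 1) = q * M + q := by ring
    omega
  rw [← hδe] at hmain
  refine Sur_crit_two (M := M) (P := μ) (q := q) (ω := δ) hq0 hA hM hq1 hμd ?_ hδ0 ?_ ?_ ?_ ?_ ?_
  · rw [Wz_plateau hcard hμ (by positivity), ← hδe]
    exact hδ0.le
  · rw [Wz_plateau hcard hμ (by exact_mod_cast (by omega : q * M ≤ μ)), ← hδe]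
  · rw [Wz_plateau hcard hμ le_rfl, ← hδe]
  · rw [Wz_plateau hcard hμ (by positivity), ← hδe]
    have : (1 : ℤ) ≤ M + 1 := by omega
    nlinarith
  · rw [hcard]
    push_cast
    linarith
  · have h1 : ∑ r ∈ range q, Wz d m A ((r : ℕ) : ℤ) = q * δ := by
      have h2 : ∀ r ∈ range q, Wz d m A ((r : ℕ) : ℤ) = δ := by
        intro r hr
        rw [mem_range] at hr
        have hqq : q ≤ q * M + q := Nat.le_add_left _ _
        rw [Wz_plateau hcard hμ (by exact_mod_cast (by omega : r ≤ μ)), ← hδe]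
      rw [sum_congr rfl h2, sum_const, card_range, nsmul_eq_mul]
    rw [h1]
    have h2 : (μ : ℤ) - M + 1 ≤ q * (M + 1) := by
      have h3 : (μ + 1 : ℤ) < (q + 1) * (M + 1) := by exact_mod_cast hq2
      linarith
    have h3 : ((M : ℤ) - 1) * (μ - M + 1) ≤ (M - 1) * (q * (M + 1)) :=
      mul_le_mul_of_nonneg_left h2 (by omega)
    have h4 := mul_le_mul_of_nonneg_left h3 hδ0.le
    nlinarith

end

/-- the conditions are at most as many as the forms -/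
theorem cond_le {ι : Type} [Fintype ι] {w : ι → ℕ} {d : ℕ} (h : Sur w (TZ d)) :
    ∑ i, (w i + 1).choose 2 ≤ (d + 2).choose 2 := by
  obtain ⟨T, h1, h2, -⟩ := h
  rw [← Pool.Agent.TH387.SH.coe_TF] at h1
  have h3 := card_le_card (show T ⊆ Pool.Agent.TH387.SH.TF d by exact_mod_cast h1)
  rw [h2, Pool.Agent.TH387.SH.card_TF] at h3
  exact h3

/-- one open set for all degrees -/
theorem open_all {n : ℕ} {w : Fin n → ℕ} {B : ℕ → Prop} (hB : ∀ d, B d → Sur w (TZ d)) :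
    ∃ F : MvPolynomial (Fin n × Fin 2) ℚ, F ≠ 0 ∧ ∀ {L : Type} [Field L] [CharZero L]
      (P : Fin n → Fin 2 → L), MvPolynomial.aeval (fun ij : Fin n × Fin 2 => P ij.1 ij.2) F ≠ 0 →
      ∀ d, B d → ExpDim L w P d := by
  obtain ⟨F, hF, hF'⟩ := expDim_two (w := w) (A := fun _ => False) (B := B) 0
    (fun d hd => hd.elim) (fun d hd => hd.elim) hB
  exact ⟨F, hF, fun {L} _ _ P hP d hd => hF' P hP d (Or.inr hd)⟩

end Pool.Agent.H879.Nine
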