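import Pool.Agent.H879.Nine.Cols

/-! The numerical criteria for independence. -/

set_option autoImplicit false

namespace Pool.Agent.H879.Nine

open Finset Pool.Agent.TH176.Nag Pool.Agent.TH603.Sur Pool.Agent.TH105.N13

variable {d : ℕ} {x0 σ : ℝ}

/-- the exact count of the long columns in the direction `(1, 1)` -/
theorem cols_one {W : ℤ → ℤ} (hσ : 0 < σ) (k P : ℕ) (hk : k < P) (hP : 3 * P < d)
    (hmono : ∀ j : ℕ, j ≤ k → σ * j - (W j : ℝ) ≤ σ * k - (W k : ℝ))
    (hW : ∀ (j : ℕ) (y : ℤ), j ≤ k → (j : ℤ) + 1 ≤ y → y ≤ P → σ * (j + 1) ≤ (W y : ℝ))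
    {C : ℕ} (hC : (C : ℝ) ≤ (W k : ℝ) + σ * (P - 2 * k)) :
    ∃ B : Finset ℤ, C ≤ B.card ∧ ∀ c ∈ B, ∃ X0 : ℤ, ∀ j : ℕ, j ≤ k →
        ((X0 + j, ((1 : ℕ) : ℤ) * (X0 + j) - c) : ℤ × ℤ) ∈ Strip d ((1 + σ) / (1 : ℕ)) x0 W := by
  refine ⟨Finset.Ico ⌈x0 + σ * k - W k⌉ ⌈x0 + σ * (P - k)⌉, ?_, fun c hc => ?_⟩
  · rw [Int.card_Ico]
    have h1 : ⌈x0 + σ * k⌉ + ((C : ℤ) - W k) ≤ ⌈x0 + σ * (P - k)⌉ := by
      have e : ⌈x0 + σ * k⌉ + ((C : ℤ) - W k) = ⌈x0 + σ * k + (((C : ℤ) - W k : ℤ) : ℝ)⌉ :=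
        (Int.ceil_add_intCast _ _).symm
      rw [e]
      apply Int.ceil_mono
      push_cast
      nlinarith
    have h2 : ⌈x0 + σ * k - W k⌉ = ⌈x0 + σ * k⌉ - W k := Int.ceil_sub_intCast _ _
    omega
  · rw [Finset.mem_Ico, Int.ceil_le, Int.lt_ceil] at hc
    obtain ⟨hc1, hc2⟩ := hc
    obtain ⟨ξ, hξ⟩ : ∃ ξ : ℝ, ξ = c - x0 := ⟨_, rfl⟩
    have hk0 : (0 : ℝ) ≤ k := Nat.cast_nonneg k
    obtain ⟨b, hb0, hbP, hb⟩ : ∃ b : ℤ, 0 ≤ b ∧ b + k ≤ P ∧ ∀ j : ℕ, j ≤ k →
        σ * (b + j) - (W (b + j) : ℝ) ≤ ξ ∧ ξ < σ * (b + j) := by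
      rcases lt_or_ge ξ 0 with h0 | h0
      · refine ⟨0, le_rfl, by omega, fun j hj => ?_⟩
        have h1 := hmono j hj
        have h2 : 0 ≤ σ * (j : ℝ) := by positivity
        simp only [zero_add, Int.cast_zero]
        constructor
        · linarith
        · linarith
      · have hξσ : ξ / σ * σ = ξ := div_mul_cancel₀ _ hσ.ne'
        have h1 := Int.lt_floor_add_one (ξ / σ)
        have h2 := Int.floor_le (ξ / σ)
        have h3 : 0 ≤ ⌊ξ / σ⌋ := Int.floor_nonneg.2 (div_nonneg h0 hσ.le)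
        have h4 : ξ / σ < P - k := by
          rw [div_lt_iff₀ hσ]
          linarith
        have h5 : ⌊ξ / σ⌋ < P - k := by
          have h6 : ((⌊ξ / σ⌋ : ℤ) : ℝ) < ((P - k : ℤ) : ℝ) := by push_cast; linarith
          exact_mod_cast h6
        refine ⟨⌊ξ / σ⌋ + 1, by omega, by omega, fun j hj => ?_⟩
        have h6 := hW j (⌊ξ / σ⌋ + 1 + j) hj (by omega) (by omega)
        have h7 : (0 : ℝ) ≤ j := Nat.cast_nonneg j
        push_cast
        constructor
        · have h8 : σ * ((⌊ξ / σ⌋ : ℝ) + 1 + j) ≤ σ * (ξ / σ + 1 + j) :=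
            mul_le_mul_of_nonneg_left (by linarith) hσ.le
          nlinarith
        · have h8 : σ * (ξ / σ) < σ * ((⌊ξ / σ⌋ : ℝ) + 1 + j) :=
            mul_lt_mul_of_pos_left (by linarith) hσ
          nlinarith
    refine ⟨c + b, fun j hj => ?_⟩
    obtain ⟨h1, h2⟩ := hb j hj
    have e : ((1 : ℕ) : ℤ) * (c + b + j) - c = b + j := by push_cast; ring
    have e' : ((c + b + j, ((1 : ℕ) : ℤ) * (c + b + j) - c) : ℤ × ℤ) =
        (c + b + j, ((1 : ℕ) : ℤ) * (c + b + j) - c) := rfl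
    refine mem_strip one_pos ?_ ?_ ?_ ?_
    · rw [e]; omega
    · rw [e]; omega
    · rw [e]
      push_cast
      rw [hξ] at h1
      linarith
    · rw [e]
      push_cast
      rw [hξ] at h2
      linarith

section crit

variable {ι : Type} [Fintype ι] [DecidableEq ι] {m : ι → ℕ} {A : Finset ι}

omit [Fintype ι] [DecidableEq ι] in
theorem Wz_slope {x y : ℤ} (hxy : x ≤ y) :
    Wz d m A y - Wz d m A x ≤ ((A.card : ℤ) - 9) * (y - x) := by
  unfold Wz
  have h1 : ∑ i ∈ A, max ((m i : ℤ) - x) 0 ≤ ∑ i ∈ A, (max ((m i : ℤ) - y) 0 + (y - x)) := by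
    refine sum_le_sum fun i _ => ?_
    rcases le_total ((m i : ℤ) - x) 0 with h1 | h1 <;> rcases le_total ((m i : ℤ) - y) 0 with h2 | h2 <;>
      simp only [max_eq_left, max_eq_right, h1, h2] <;> omega
  rw [sum_add_distrib, sum_const, nsmul_eq_mul] at h1
  linarith

/-- the multiplicities of the points which are not absorbed -/
theorem sum_rest_le {M k : ℕ} (hM : ∀ i, i ∉ A → m i ≤ M) (hk : k ≤ M) (hM0 : 0 < M) :
    ((∑ i, ((if i ∈ A then 0 else m i) - k) : ℕ) : ℝ) ≤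
      (1 - k / M) * ((∑ i ∈ univ \ A, m i : ℕ) : ℝ) := by
  have hMR : (0 : ℝ) < M := by exact_mod_cast hM0
  have hkR : (k : ℝ) ≤ M := by exact_mod_cast hk
  have h1 : ∑ i, ((if i ∈ A then 0 else m i) - k) = ∑ i ∈ univ \ A, (m i - k) := by
    rw [← sum_sdiff (subset_univ A)]
    have h2 : ∑ i ∈ A, ((if i ∈ A then 0 else m i) - k) = 0 :=
      sum_eq_zero fun i hi => by simp [hi]
    rw [h2, add_zero]
    refine sum_congr rfl fun i hi => ?_
    rw [mem_sdiff] at hi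
    simp [hi.2]
  rw [h1]
  push_cast
  rw [mul_sum]
  refine sum_le_sum fun i hi => ?_
  rw [mem_sdiff] at hi
  have h3 := hM i hi.2
  have h4 : (m i : ℝ) ≤ M := by exact_mod_cast h3
  have hk0 : 0 ≤ 1 - (k : ℝ) / M := by
    rw [sub_nonneg, div_le_one hMR]
    exact hkR
  rcases le_total (m i) k with h5 | h5
  · rw [Nat.sub_eq_zero_of_le h5]
    push_cast
    positivity
  · rw [Nat.cast_sub h5]
    have h6 : (k : ℝ) / M * m i ≤ k := by
      rw [div_mul_eq_mul_div, div_le_iff₀ hMR]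
      exact mul_le_mul_of_nonneg_left h4 (Nat.cast_nonneg k)
    linarith

/-- **first criterion** -/
theorem Sur_crit_one {M P : ℕ} {ω : ℤ} (hA : ∀ i ∈ A, 3 * m i ≤ d) (hM : ∀ i, i ∉ A → m i ≤ M)
    (hMP : M ≤ P) (hP : 3 * P < d) (hW0 : 0 ≤ Wz d m A 0) (hω : 0 < ω) (hωM : ω ≤ Wz d m A M)
    (hωP : ω ≤ Wz d m A P) (hs : ((A.card : ℤ) - 9) * M ≤ ω)
    (hmain : (M : ℤ) * (((∑ i ∈ univ \ A, m i : ℕ) : ℤ) - Wz d m A 0) ≤ P * ω) :
    Sur m (TZ d) := by
  rcases Nat.eq_zero_or_pos M with h0 | hM0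
  · -- no further points
    obtain ⟨x0, h⟩ := Sur_strip (ι := ι) d 0
    refine h m A hA hW0 (Sur_cols 1 fun k hk => ?_)
    obtain ⟨i, hi⟩ := hk
    exfalso
    split_ifs at hi with h1
    · omega
    · have := hM i h1
      omega
  have hMR : (0 : ℝ) < M := by exact_mod_cast hM0
  have hωR : (0 : ℝ) < ω := by exact_mod_cast hω
  have hMPR : (M : ℝ) ≤ P := by exact_mod_cast hMP
  obtain ⟨σ, hσ⟩ : ∃ σ : ℝ, σ = ω / M := ⟨_, rfl⟩
  have hσ0 : 0 < σ := by rw [hσ]; positivity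
  have hσM : σ * M = ω := by rw [hσ]; exact div_mul_cancel₀ _ hMR.ne'
  have hwM : (ω : ℝ) ≤ Wr d m A M := by
    have := Wr_cast (d := d) (m := m) (A := A) M
    push_cast at this
    rw [this]
    exact_mod_cast hωM
  have hwP : (ω : ℝ) ≤ Wr d m A P := by
    have := Wr_cast (d := d) (m := m) (A := A) P
    push_cast at this
    rw [this]
    exact_mod_cast hωP
  have hw0 : ((Wz d m A 0 : ℤ) : ℝ) ≤ Wr d m A 0 := by
    have := Wr_cast (d := d) (m := m) (A := A) 0
    push_cast at this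
    rw [this]
  have hW0R : (0 : ℝ) ≤ ((Wz d m A 0 : ℤ) : ℝ) := by exact_mod_cast hW0
  obtain ⟨x0, h⟩ := Sur_strip (ι := ι) d ((1 + σ) / (1 : ℕ))
  refine h m A hA hW0 (Sur_cols 1 fun k hk => ?_)
  have hkM : k < M := by
    obtain ⟨i, hi⟩ := hk
    split_ifs at hi with h1
    · omega
    · have := hM i h1
      omega
  have hkR : (k : ℝ) < M := by exact_mod_cast hkM
  have hk0 : (0 : ℝ) ≤ k := Nat.cast_nonneg k
  refine cols_one hσ0 k P (by omega) hP ?_ ?_ ?_
  · intro j hj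
    have hjR : (j : ℝ) ≤ k := by exact_mod_cast hj
    have h1 := Wz_slope (d := d) (m := m) (A := A) (show (j : ℤ) ≤ k by exact_mod_cast hj)
    have h2 : ((Wz d m A k : ℤ) : ℝ) - ((Wz d m A j : ℤ) : ℝ) ≤ ((A.card : ℝ) - 9) * (k - j) := by
      exact_mod_cast h1
    have h3 : ((A.card : ℝ) - 9) ≤ σ := by
      rw [hσ, le_div_iff₀ hMR]
      exact_mod_cast hs
    have h4 : ((A.card : ℝ) - 9) * (k - j) ≤ σ * (k - j) :=
      mul_le_mul_of_nonneg_right h3 (by linarith)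
    linarith
  · intro j y hj hy1 hy2
    have hyR1 : (j : ℝ) + 1 ≤ y := by exact_mod_cast hy1
    have hyR2 : (y : ℝ) ≤ P := by exact_mod_cast hy2
    have hjR : (j : ℝ) + 1 ≤ M := by
      have : j + 1 ≤ M := by omega
      exact_mod_cast this
    have hj0 : (0 : ℝ) ≤ j := Nat.cast_nonneg j
    rw [← Wr_cast]
    rcases le_total (M : ℝ) y with h1 | h1
    · have h2 : (ω : ℝ) ≤ Wr d m A y := by
        rcases hMPR.lt_or_eq with h3 | h3
        · have h4 := Wr_between h1 hyR2 hwM hwP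
          by_contra hcon
          push Not at hcon
          have h5 : Wr d m A y * ((P : ℝ) - M) < ω * ((P : ℝ) - M) :=
            mul_lt_mul_of_pos_right hcon (by linarith)
          linarith
        · have : (y : ℝ) = M := by linarith
          rw [this]
          exact hwM
      refine le_trans ?_ h2
      rw [← hσM]
      exact mul_le_mul_of_nonneg_left hjR hσ0.le
    · have h2 := Wr_between (by linarith : (0 : ℝ) ≤ y) h1 (hW0R.trans hw0) hwM
      rw [zero_mul, zero_add, sub_zero, sub_zero, ← hσM] at h2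
      have h3 : σ * y ≤ Wr d m A y := by
        have h4 : σ * y * M ≤ Wr d m A y * M := by linarith
        exact le_of_mul_le_mul_right h4 hMR
      have h4 : σ * ((j : ℝ) + 1) ≤ σ * y := mul_le_mul_of_nonneg_left hyR1 hσ0.le
      linarith
  · refine (sum_rest_le hM hkM.le hM0).trans ?_
    have hmainR : (M : ℝ) * (((∑ i ∈ univ \ A, m i : ℕ) : ℝ) - (Wz d m A 0 : ℤ)) ≤ P * ω := by
      exact_mod_cast hmain
    have h1 : ((∑ i ∈ univ \ A, m i : ℕ) : ℝ) ≤ ((Wz d m A 0 : ℤ) : ℝ) + P * σ := by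
      have h2 : (M : ℝ) * ((∑ i ∈ univ \ A, m i : ℕ) : ℝ) ≤ M * (((Wz d m A 0 : ℤ) : ℝ) + P * σ) := by
        have e : (M : ℝ) * (P * σ) = P * ω := by rw [← hσM]; ring
        rw [mul_add, e]
        linarith
      exact le_of_mul_le_mul_left h2 hMR
    have hk1 : 0 ≤ 1 - (k : ℝ) / M := by
      rw [sub_nonneg, div_le_one hMR]
      exact hkR.le
    have h2 := Wr_between (d := d) (m := m) (A := A) hk0 hkR.le hw0 hwM
    have h3 : (1 - (k : ℝ) / M) * ((Wz d m A 0 : ℤ) : ℝ) + σ * k ≤ Wr d m A k := by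
      have h4 : ((1 - (k : ℝ) / M) * ((Wz d m A 0 : ℤ) : ℝ) + σ * k) * M ≤ Wr d m A k * M := by
        have e : ((1 - (k : ℝ) / M) * ((Wz d m A 0 : ℤ) : ℝ) + σ * k) * M =
            ((Wz d m A 0 : ℤ) : ℝ) * (M - k) + ω * (k - 0) := by
          rw [← hσM]
          field_simp
          ring
        rw [e]
        linarith
      exact le_of_mul_le_mul_right h4 hMR
    have h4 : Wr d m A k = ((Wz d m A k : ℤ) : ℝ) := by
      have := Wr_cast (d := d) (m := m) (A := A) k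
      push_cast at this
      exact this
    rw [← h4]
    have h5 := mul_le_mul_of_nonneg_left h1 hk1
    have h6 : (1 - (k : ℝ) / M) * (P * σ) ≤ σ * (P - k) := by
      have h7 : (k : ℝ) ≤ k / M * P := by
        rw [div_mul_eq_mul_div, le_div_iff₀ hMR]
        exact mul_le_mul_of_nonneg_left hMPR hk0
      have h8 := mul_le_mul_of_nonneg_left h7 hσ0.le
      linarith
    linarith

/-- **second criterion** -/
theorem Sur_crit_two {M P q : ℕ} {ω : ℤ} (hq : 0 < q) (hA : ∀ i ∈ A, 3 * m i ≤ d)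
    (hM : ∀ i, i ∉ A → m i ≤ M) (hMP : q * (M + 1) ≤ P + 1) (hP : 3 * P < d)
    (hW0 : 0 ≤ Wz d m A 0) (hω : 0 < ω) (hωM : ω ≤ Wz d m A ((q * M : ℕ) : ℤ))
    (hωP : ω ≤ Wz d m A P) (hω0 : ω ≤ (M + 1) * Wz d m A 0)
    (hs : ((A.card : ℤ) - 9) * (q * (M + 1)) ≤ ω)
    (hmain : 3 * ((M : ℤ) + 1) ^ 2 * (((∑ i ∈ univ \ A, m i : ℕ) : ℤ) -
      ∑ r ∈ range q, Wz d m A ((r : ℕ) : ℤ)) ≤
        ω * ((d : ℤ) * M + 3 * P - 3 * (2 * q - 1) * (M + 1))) :
    Sur m (TZ d) := by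
  rcases Nat.eq_zero_or_pos M with h0 | hM0
  · -- no further points
    obtain ⟨x0, h⟩ := Sur_strip (ι := ι) d 0
    refine h m A hA hW0 (Sur_cols 1 fun k hk => ?_)
    obtain ⟨i, hi⟩ := hk
    exfalso
    split_ifs at hi with h1
    · omega
    · have := hM i h1
      omega
  have hMR : (0 : ℝ) < M := by exact_mod_cast hM0
  have hωR : (0 : ℝ) < ω := by exact_mod_cast hω
  have hqR : (1 : ℝ) ≤ q := by exact_mod_cast hq
  have hPR : 3 * (P : ℝ) < d := by exact_mod_cast hP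
  have hMPR : (q : ℝ) * (M + 1) ≤ P + 1 := by exact_mod_cast hMP
  obtain ⟨σ, hσ⟩ : ∃ σ : ℝ, σ = ω / (M + 1) := ⟨_, rfl⟩
  have hσ0 : 0 < σ := by rw [hσ]; positivity
  have hσM : σ * (M + 1) = ω := by rw [hσ]; exact div_mul_cancel₀ _ (by positivity)
  have hwM : (ω : ℝ) ≤ Wr d m A (q * M) := by
    have := Wr_cast (d := d) (m := m) (A := A) ((q * M : ℕ) : ℤ)
    push_cast at this
    rw [this]
    exact_mod_cast hωM
  have hwP : (ω : ℝ) ≤ Wr d m A P := by
    have := Wr_cast (d := d) (m := m) (A := A) P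
    push_cast at this
    rw [this]
    exact_mod_cast hωP
  have hw0 : σ ≤ Wr d m A 0 := by
    have := Wr_cast (d := d) (m := m) (A := A) 0
    push_cast at this
    rw [this, hσ, div_le_iff₀ (by positivity)]
    have h1 : (ω : ℝ) ≤ (M + 1) * ((Wz d m A 0 : ℤ) : ℝ) := by exact_mod_cast hω0
    linarith
  have hqMP : (q : ℝ) * M ≤ P := by linarith
  -- the values between `q M` and `P`
  have hmid : ∀ y : ℝ, q * M ≤ y → y ≤ P → (ω : ℝ) ≤ Wr d m A y := by
    intro y h1 h2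
    rcases hqMP.lt_or_eq with h3 | h3
    · have h4 := Wr_between h1 h2 hwM hwP
      by_contra hcon
      push Not at hcon
      have h5 : Wr d m A y * ((P : ℝ) - q * M) < ω * ((P : ℝ) - q * M) :=
        mul_lt_mul_of_pos_right hcon (by linarith)
      linarith
    · have : y = q * M := by linarith
      rw [this]
      exact hwM
  have hsσ : ((A.card : ℝ) - 9) * q ≤ σ := by
    rw [hσ, le_div_iff₀ (by positivity)]
    have : ((A.card : ℝ) - 9) * (q * (M + 1)) ≤ ω := by exact_mod_cast hs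
    linarith
  obtain ⟨x0, h⟩ := Sur_strip (ι := ι) d ((1 + σ) / q)
  refine h m A hA hW0 (Sur_cols q fun k hk => ?_)
  have hkM : k < M := by
    obtain ⟨i, hi⟩ := hk
    split_ifs at hi with h1
    · omega
    · have := hM i h1
      omega
  have hkR : (k : ℝ) + 1 ≤ M := by
    have : k + 1 ≤ M := hkM
    exact_mod_cast this
  have hk0 : (0 : ℝ) ≤ k := Nat.cast_nonneg k
  have hd3 : (0 : ℝ) < d / 3 - P := by linarith
  obtain ⟨v, hv⟩ : ∃ v : ℝ, v = d / 3 - (d / 3 - P) * (k + 1) / (M + 1) := ⟨_, rfl⟩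
  have hvM : (d / 3 - v) * (M + 1) = (d / 3 - P) * (k + 1) := by
    rw [hv]
    field_simp
    ring
  have hkq : q * (k + 1) + q ≤ P + 1 := by
    have h1 : q * (k + 1) ≤ q * M := Nat.mul_le_mul_left q hkM
    have h2 : q * (M + 1) = q * M + q := by ring
    omega
  refine cols hq hσ0 k (by omega) ?_ ?_ v ?_ ?_ ?_
  · intro r j hr hj
    have hjR : (j : ℝ) ≤ k := by exact_mod_cast hj
    have h1 := Wz_slope (d := d) (m := m) (A := A)
      (show ((r + q * j : ℕ) : ℤ) ≤ ((r + q * k : ℕ) : ℤ) by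
        have : q * j ≤ q * k := Nat.mul_le_mul_left q hj
        exact_mod_cast (by omega : r + q * j ≤ r + q * k))
    have h2 : ((Wz d m A ((r + q * k : ℕ) : ℤ) : ℤ) : ℝ) - ((Wz d m A ((r + q * j : ℕ) : ℤ) : ℤ) : ℝ) ≤
        ((A.card : ℝ) - 9) * (((r + q * k : ℕ) : ℝ) - ((r + q * j : ℕ) : ℝ)) := by
      exact_mod_cast h1
    have h3 : q * (((A.card : ℝ) - 9) * (((r + q * k : ℕ) : ℝ) - ((r + q * j : ℕ) : ℝ))) ≤
        σ * (((r + q * k : ℕ) : ℝ) - ((r + q * j : ℕ) : ℝ)) := by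
      have h4 : (0 : ℝ) ≤ ((r + q * k : ℕ) : ℝ) - ((r + q * j : ℕ) : ℝ) := by
        push_cast
        have := mul_le_mul_of_nonneg_left hjR (by linarith : (0 : ℝ) ≤ q)
        linarith
      have h5 := mul_le_mul_of_nonneg_right hsσ h4
      linarith
    have h4 := mul_le_mul_of_nonneg_left h2 (by linarith : (0 : ℝ) ≤ q)
    linarith
  · intro r hr
    refine Wz_nonneg hA hW0 (by positivity) ?_
    have : r + q * k < q * (k + 1) := by
      have : q * (k + 1) = q * k + q := by ring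
      omega
    push_cast
    have h2 : 3 * (r + q * k) ≤ d := by omega
    exact_mod_cast h2
  · have h1 : 0 < (d / 3 - v) * (M + 1) := by rw [hvM]; positivity
    have h2 : 0 < d / 3 - v := pos_of_mul_pos_left h1 (by positivity)
    linarith
  · intro j y hj hy1 hy2
    have hjR : (j : ℝ) ≤ k := by exact_mod_cast hj
    have hj0 : (0 : ℝ) ≤ j := Nat.cast_nonneg j
    have hyR1 : (q : ℝ) * j ≤ y := by exact_mod_cast hy1
    rw [← Wr_cast]
    rcases le_total (P : ℝ) y with h1 | h1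
    · have h2 : ((d : ℝ) / 3 - P) * (k + 1) ≤ (d / 3 - y) * (M + 1) := by
        rw [← hvM]
        exact mul_le_mul_of_nonneg_right (by linarith) (by positivity)
      have h3 : 0 < (d : ℝ) / 3 - y := by
        have : 0 < (d / 3 - (y : ℝ)) * (M + 1) := lt_of_lt_of_le (by positivity) h2
        exact pos_of_mul_pos_left this (by positivity)
      have h4 := Wr_chord hA hPR hwP h1 (by linarith)
      rw [← hσM] at h4
      have h5 := mul_le_mul_of_nonneg_left h2 hσ0.le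
      have h6 : σ * (k + 1) * (d / 3 - P) ≤ Wr d m A y * (d / 3 - P) := by nlinarith
      have h7 : σ * (k + 1) ≤ Wr d m A y := le_of_mul_le_mul_right h6 hd3
      have h8 : σ * (j + 1) ≤ σ * (k + 1) := mul_le_mul_of_nonneg_left (by linarith) hσ0.le
      linarith
    · rcases le_total ((q : ℝ) * M) y with h2 | h2
      · refine le_trans ?_ (hmid y h2 h1)
        rw [← hσM]
        exact mul_le_mul_of_nonneg_left (by linarith) hσ0.le
      · have hy0 : (0 : ℝ) ≤ y := le_trans (by positivity) hyR1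
        have h3 := Wr_between hy0 h2 hw0 hwM
        rw [sub_zero, sub_zero, ← hσM] at h3
        have hqM : (0 : ℝ) < q * M := by positivity
        have h4 : σ * (j + 1) * (q * M) ≤ Wr d m A y * (q * M) := by
          refine le_trans ?_ h3
          have h5 : σ * (M * (q * j)) ≤ σ * (M * y) :=
            mul_le_mul_of_nonneg_left (mul_le_mul_of_nonneg_left hyR1 hMR.le) hσ0.le
          nlinarith
        exact le_of_mul_le_mul_right h4 hqM
  · refine (sum_rest_le hM hkM.le hM0).trans ?_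
    obtain ⟨S0, hS0⟩ : ∃ S0 : ℝ, S0 = ∑ r ∈ range q, ((Wz d m A ((r : ℕ) : ℤ) : ℤ) : ℝ) := ⟨_, rfl⟩
    obtain ⟨C, hC⟩ : ∃ C : ℝ, C = ((∑ i ∈ univ \ A, m i : ℕ) : ℝ) := ⟨_, rfl⟩
    have hmainR : 3 * ((M : ℝ) + 1) ^ 2 * (C - S0) ≤
        ω * ((d : ℝ) * M + 3 * P - 3 * (2 * q - 1) * (M + 1)) := by
      rw [hC, hS0]
      exact_mod_cast hmain
    rw [← hC]
    have hk1 : 0 ≤ 1 - (k : ℝ) / M := by
      rw [sub_nonneg, div_le_one hMR]
      linarith
    have hk2 : 0 ≤ (k : ℝ) / M := by positivity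
    -- the rows
    have h1 : (1 - (k : ℝ) / M) * S0 + k / M * (q * ω) ≤
        ∑ r ∈ range q, ((Wz d m A ((r + q * k : ℕ) : ℤ) : ℤ) : ℝ) := by
      have h2 : ∀ r ∈ range q, (1 - (k : ℝ) / M) * ((Wz d m A ((r : ℕ) : ℤ) : ℤ) : ℝ) + k / M * ω ≤
          ((Wz d m A ((r + q * k : ℕ) : ℤ) : ℤ) : ℝ) := by
        intro r hr
        rw [mem_range] at hr
        have hrR : (r : ℝ) + 1 ≤ q := by
          have : r + 1 ≤ q := hr
          exact_mod_cast this
        have hr0 : (0 : ℝ) ≤ r := Nat.cast_nonneg r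
        have h3 := Wr_conc (d := d) (m := m) (A := A) (x := r) (y := q * M + r) hk1 hk2 (by ring)
        have e : (1 - (k : ℝ) / M) * r + k / M * (q * M + r) = (((r + q * k : ℕ) : ℤ) : ℝ) := by
          push_cast
          field_simp
          ring
        rw [e, Wr_cast] at h3
        have e2 : Wr d m A (r : ℝ) = ((Wz d m A ((r : ℕ) : ℤ) : ℤ) : ℝ) := by
          have := Wr_cast (d := d) (m := m) (A := A) ((r : ℕ) : ℤ)
          rw [← this]
          push_cast
          rfl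
        rw [e2] at h3
        have h4 := hmid (q * M + r) (by linarith) (by linarith)
        have h5 := mul_le_mul_of_nonneg_left h4 hk2
        linarith
      have h3 := sum_le_sum h2
      rw [sum_add_distrib, ← mul_sum, sum_const, card_range, nsmul_eq_mul, ← hS0] at h3
      linarith
    -- the main inequality
    have h2 : C - S0 ≤ ω * ((d : ℝ) * M + 3 * P - 3 * (2 * q - 1) * (M + 1)) /
        (3 * ((M : ℝ) + 1) ^ 2) := by
      rw [le_div_iff₀ (by positivity)]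
      linarith
    have h3 := mul_le_mul_of_nonneg_left h2 hk1
    have key : (k : ℝ) / M * (q * ω) + σ * (v - 2 * (q * (k + 1)) + 1) -
        (1 - (k : ℝ) / M) * (ω * ((d : ℝ) * M + 3 * P - 3 * (2 * q - 1) * (M + 1)) /
        (3 * ((M : ℝ) + 1) ^ 2)) = ω * (k / M * ((P + 1 - q * (M + 1)) / (M + 1))) := by
      rw [hσ, hv]
      field_simp
      ring
    have h4 : 0 ≤ ω * ((k : ℝ) / M * ((P + 1 - q * (M + 1)) / (M + 1))) := by
      have h5 : 0 ≤ ((P : ℝ) + 1 - q * (M + 1)) / (M + 1) :=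
        div_nonneg (by linarith) (by positivity)
      positivity
    linarith

end crit

end Pool.Agent.H879.Nine
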