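import Pool.Agent.H879.Nine.Absorb

/-! The strips: the lattice points of the rows `0 ≤ y < d / 3` of half-open intervals of length
`W y` whose right ends lie on a line of any real slope. -/

set_option autoImplicit false

namespace Pool.Agent.H879.Nine

open Finset Pool.Agent.TH176.Nag Pool.Agent.TH603.Sur Pool.Agent.TH105.N13

/-- rows of the half-open intervals `[x0 + s y - W y, x0 + s y)`, `0 ≤ y`, `3 y < d` -/
def Strip (d : ℕ) (s x0 : ℝ) (W : ℤ → ℤ) : Set (ℤ × ℤ) :=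
  {p | 0 ≤ p.2 ∧ 3 * p.2 < d ∧ x0 + s * p.2 - W p.2 ≤ p.1 ∧ (p.1 : ℝ) < x0 + s * p.2}

/-- a small perturbation of a line, seen from finitely many rows -/
theorem floor_pert (z η : ℝ) (h0 : 0 < η) (h1 : η < z - ⌈z⌉ + 1) : ⌊z - η⌋ = ⌈z⌉ - 1 := by
  have h2 := Int.le_ceil z
  rw [Int.floor_eq_iff]
  push_cast
  constructor
  · linarith
  · linarith

/-- the perturbation of the slope -/
theorem exists_pert (d : ℕ) (s : ℝ) : ∃ (t : ℤ) (τ : ℝ), 0 < τ ∧ τ < 1 ∧ Irrational τ ∧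
    ∀ y : ℤ, 0 ≤ y → 3 * y < d →
      ⌊(2 - τ) * d + (t - 3 * (2 - τ)) * y⌋ = ⌈(t - s) * (d / 3) + s * y⌉ - 1 := by
  obtain ⟨t, ht⟩ : ∃ t : ℤ, t = ⌊s⌋ + 4 := ⟨_, rfl⟩
  have hs1 : (t : ℝ) - s ≤ 4 := by
    rw [ht]; push_cast
    have := Int.floor_le s
    linarith
  have hs2 : 3 < (t : ℝ) - s := by
    rw [ht]; push_cast
    have := Int.lt_floor_add_one s
    linarith
  -- the bound for the perturbation
  obtain ⟨ε, hε0, hε1, hε2⟩ : ∃ ε : ℝ, 0 < ε ∧ ε ≤ 2 - (2 - (t - s) / 3) - 1 ∧ ∀ y ∈ Finset.Icc (0 : ℤ) d,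
      ε * d < ((t - s) * (d / 3) + s * y) - ⌈(t - s) * (d / 3) + s * y⌉ + 1 := by
    have hpos : ∀ y : ℤ, 0 < ((t - s) * (d / 3) + s * y) - ⌈(t - s) * (d / 3) + s * y⌉ + 1 := by
      intro y
      have := Int.ceil_lt_add_one ((t - s) * (d / 3) + s * y)
      linarith
    have hne : (Finset.Icc (0 : ℤ) d).Nonempty := ⟨0, by simp⟩
    obtain ⟨y0, hy0, hmin⟩ := Finset.exists_min_image (Finset.Icc (0 : ℤ) d)
      (fun y : ℤ => ((t - s) * (d / 3) + s * y) - ⌈(t - s) * (d / 3) + s * y⌉ + 1) hne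
    obtain ⟨c, hc⟩ : ∃ c : ℝ, c = ((t - s) * (d / 3) + s * y0) - ⌈(t - s) * (d / 3) + s * y0⌉ + 1 :=
      ⟨_, rfl⟩
    have hc0 : 0 < c := by rw [hc]; exact hpos y0
    have hd : (0 : ℝ) < d + 1 := by positivity
    refine ⟨min (c / (d + 1)) (2 - (2 - (t - s) / 3) - 1), lt_min (by positivity) (by linarith),
      min_le_right _ _, fun y hy => ?_⟩
    refine lt_of_lt_of_le ?_ (hmin y hy)
    rw [← hc]
    have h1 : min (c / (d + 1)) (2 - (2 - (t - s) / 3) - 1) * (d + 1) ≤ c / (d + 1) * (d + 1) :=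
      mul_le_mul_of_nonneg_right (min_le_left _ _) hd.le
    rw [div_mul_cancel₀ _ hd.ne'] at h1
    have h2 : 0 < min (c / (d + 1)) (2 - (2 - (t - s) / 3) - 1) := lt_min (by positivity) (by linarith)
    linarith
  obtain ⟨τ, hτ, h1, h2⟩ := exists_irrational_btwn (show (2 - (t - s) / 3 : ℝ) < 2 - (t - s) / 3 + ε by
    linarith)
  refine ⟨t, τ, by linarith, by linarith, hτ, fun y hy hyd => ?_⟩
  have hyR : (0 : ℝ) ≤ y := by exact_mod_cast hy
  have hydR : 3 * (y : ℝ) < d := by exact_mod_cast hyd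
  have e : (2 - τ) * d + (t - 3 * (2 - τ)) * (y : ℝ) =
      ((t - s) * (d / 3) + s * y) - (τ - (2 - (t - s) / 3)) * (d - 3 * y) := by
    ring
  rw [e]
  have h3 := hε2 y (Finset.mem_Icc.2 ⟨hy, by omega⟩)
  apply floor_pert
  · exact mul_pos (by linarith) (by linarith)
  · refine lt_of_le_of_lt ?_ h3
    have h4 : (τ - (2 - (t - s) / 3)) * (d - 3 * y) ≤ ε * (d - 3 * y) :=
      mul_le_mul_of_nonneg_right (by linarith) (by linarith)
    have h5 : ε * (d - 3 * y) ≤ ε * d := mul_le_mul_of_nonneg_left (by linarith) hε0.le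
    linarith

/-- the lengths of the rows, the points of `A` being absorbed -/
def Wz {ι : Type} (d : ℕ) (m : ι → ℕ) (A : Finset ι) (y : ℤ) : ℤ :=
  3 * (d : ℤ) - 9 * y - ∑ i ∈ A, max ((m i : ℤ) - y) 0

/-- the same at real points -/
noncomputable def Wr {ι : Type} (d : ℕ) (m : ι → ℕ) (A : Finset ι) (y : ℝ) : ℝ :=
  3 * (d : ℝ) - 9 * y - ∑ i ∈ A, max ((m i : ℝ) - y) 0

variable {ι : Type} {d : ℕ} {m : ι → ℕ} {A : Finset ι}

theorem Wr_cast (y : ℤ) : Wr d m A (y : ℝ) = (Wz d m A y : ℝ) := by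
  unfold Wr Wz
  push_cast
  rfl

/-- concavity -/
theorem Wr_conc {x y a b : ℝ} (ha : 0 ≤ a) (hb : 0 ≤ b) (hab : a + b = 1) :
    a * Wr d m A x + b * Wr d m A y ≤ Wr d m A (a * x + b * y) := by
  have h1 : ∑ i ∈ A, max ((m i : ℝ) - (a * x + b * y)) 0 ≤
      a * ∑ i ∈ A, max ((m i : ℝ) - x) 0 + b * ∑ i ∈ A, max ((m i : ℝ) - y) 0 := by
    rw [mul_sum, mul_sum, ← sum_add_distrib]
    refine sum_le_sum fun i _ => max_le ?_ ?_
    · have h2 : a * ((m i : ℝ) - x) ≤ a * max ((m i : ℝ) - x) 0 :=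
        mul_le_mul_of_nonneg_left (le_max_left _ _) ha
      have h3 : b * ((m i : ℝ) - y) ≤ b * max ((m i : ℝ) - y) 0 :=
        mul_le_mul_of_nonneg_left (le_max_left _ _) hb
      have h4 : (m i : ℝ) = a * m i + b * m i := by rw [← add_mul, hab, one_mul]
      linarith
    · have h2 : 0 ≤ a * max ((m i : ℝ) - x) 0 := mul_nonneg ha (le_max_right _ _)
      have h3 : 0 ≤ b * max ((m i : ℝ) - y) 0 := mul_nonneg hb (le_max_right _ _)
      linarith
  unfold Wr
  have h5 : 3 * (d : ℝ) = a * (3 * d) + b * (3 * d) := by rw [← add_mul, hab, one_mul]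
  nlinarith

theorem Wr_top (h : ∀ i ∈ A, 3 * m i ≤ d) : Wr d m A ((d : ℝ) / 3) = 0 := by
  unfold Wr
  rw [sum_eq_zero]
  · ring
  · intro i hi
    apply max_eq_right
    have : (3 * m i : ℝ) ≤ d := by exact_mod_cast h i hi
    linarith

/-- the chord from `(P, ω)` to `(d / 3, 0)` -/
theorem Wr_chord (h : ∀ i ∈ A, 3 * m i ≤ d) {P ω y : ℝ} (hP : 3 * P < d) (hω : ω ≤ Wr d m A P)
    (hy : P ≤ y) (hyd : 3 * y ≤ d) : ω * (d / 3 - y) ≤ Wr d m A y * (d / 3 - P) := by
  have hpos : 0 < (d : ℝ) / 3 - P := by linarith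
  have h1 := Wr_conc (d := d) (m := m) (A := A) (x := P) (y := (d : ℝ) / 3)
    (a := (d / 3 - y) / (d / 3 - P)) (b := (y - P) / (d / 3 - P))
    (div_nonneg (by linarith) hpos.le) (div_nonneg (by linarith) hpos.le)
    (by rw [← add_div, div_eq_one_iff_eq hpos.ne']; ring)
  rw [Wr_top h, mul_zero, add_zero] at h1
  have e : (d / 3 - y) / (d / 3 - P) * P + (y - P) / (d / 3 - P) * (d / 3) = y := by
    rw [div_mul_eq_mul_div, div_mul_eq_mul_div, ← add_div, div_eq_iff hpos.ne']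
    ring
  rw [e, div_mul_eq_mul_div, div_le_iff₀ hpos] at h1
  have h2 : ω * (d / 3 - y) ≤ Wr d m A P * (d / 3 - y) :=
    mul_le_mul_of_nonneg_right hω (by linarith)
  linarith

/-- the chord between two points -/
theorem Wr_between {x y z ω ω' : ℝ} (hxy : x ≤ y) (hyz : y ≤ z) (hx : ω ≤ Wr d m A x)
    (hz : ω' ≤ Wr d m A z) : ω * (z - y) + ω' * (y - x) ≤ Wr d m A y * (z - x) := by
  rcases (hxy.trans hyz).lt_or_eq with h | h
  · have hpos : 0 < z - x := by linarith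
    have h1 := Wr_conc (d := d) (m := m) (A := A) (x := x) (y := z)
      (a := (z - y) / (z - x)) (b := (y - x) / (z - x))
      (div_nonneg (by linarith) hpos.le) (div_nonneg (by linarith) hpos.le)
      (by rw [← add_div, div_eq_one_iff_eq hpos.ne']; ring)
    have e : (z - y) / (z - x) * x + (y - x) / (z - x) * z = y := by
      rw [div_mul_eq_mul_div, div_mul_eq_mul_div, ← add_div, div_eq_iff hpos.ne']
      ring
    rw [e, div_mul_eq_mul_div, div_mul_eq_mul_div, ← add_div, div_le_iff₀ hpos] at h1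
    have h2 : ω * (z - y) ≤ Wr d m A x * (z - y) := mul_le_mul_of_nonneg_right hx (by linarith)
    have h3 : ω' * (y - x) ≤ Wr d m A z * (y - x) := mul_le_mul_of_nonneg_right hz (by linarith)
    linarith
  · have e1 : z - y = 0 := by linarith
    have e2 : y - x = 0 := by linarith
    have e3 : z - x = 0 := by linarith
    rw [e1, e2, e3]
    simp

theorem Wz_nonneg (h : ∀ i ∈ A, 3 * m i ≤ d) (h0 : 0 ≤ Wz d m A 0) {y : ℤ} (hy : 0 ≤ y)
    (hyd : 3 * y ≤ d) : 0 ≤ Wz d m A y := by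
  have hyR : (0 : ℝ) ≤ y := by exact_mod_cast hy
  have hydR : 3 * (y : ℝ) ≤ d := by exact_mod_cast hyd
  have h0' : (0 : ℝ) ≤ Wr d m A 0 := by
    have := Wr_cast (d := d) (m := m) (A := A) 0
    rw [Int.cast_zero] at this
    rw [this]
    exact_mod_cast h0
  have h1 : (0 : ℝ) ≤ Wr d m A y := by
    rcases hydR.lt_or_eq with h2 | h2
    · by_contra hcon
      push Not at hcon
      have h3 := Wr_between (d := d) (m := m) (A := A) (x := 0) (y := y) (z := (d : ℝ) / 3)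
        (ω := 0) (ω' := 0) hyR (by linarith) h0' (by rw [Wr_top h])
      have h4 : Wr d m A y * (d / 3 - 0) < 0 := mul_neg_of_neg_of_pos hcon (by linarith)
      linarith
    · have : (y : ℝ) = d / 3 := by linarith
      rw [this, Wr_top h]
  rw [Wr_cast] at h1
  exact_mod_cast h1

/-- **the reduction to the strips**: for any real slope, absorbing the points of `A` -/
theorem Sur_strip [Fintype ι] [DecidableEq ι] (d : ℕ) (s : ℝ) : ∃ x0 : ℝ, ∀ (m : ι → ℕ)
    (A : Finset ι), (∀ i ∈ A, 3 * m i ≤ d) → 0 ≤ Wz d m A 0 →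
    Sur (fun i => if i ∈ A then 0 else m i) (Strip d s x0 (Wz d m A)) → Sur m (TZ d) := by
  obtain ⟨t, τ, h0, h1, hirr, hfl⟩ := exists_pert d s
  refine ⟨(t - s) * (d / 3), fun m A hA hW h => ?_⟩
  refine Sur_plane (t := t) h0 h1 hirr (Sur_absorb m A _ (fun i hi => ?_) (fun y hy hyH => ?_) ?_)
  · have := hA i hi
    omega
  · have h2 := Wz_nonneg hA hW hy (by omega)
    unfold Wz at h2
    unfold L1
    rw [max_eq_right (show ((0 : ℕ) : ℤ) - y ≤ 0 by push_cast; omega)]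
    linarith
  · refine h.mono ?_
    rintro ⟨x, y⟩ ⟨g1, g2, g3, g4⟩
    simp only at g1 g2 g3 g4
    have e := hfl y g1 g2
    refine ⟨g1, by simp only; omega, ?_, ?_⟩
    · simp only
      rw [e]
      have h3 : ⌈(t - s) * (d / 3) + s * y⌉ ≤ x + Wz d m A y := by
        rw [Int.ceil_le]
        push_cast
        linarith
      have h4 : L1 d 0 y - ∑ i ∈ A, max ((m i : ℤ) - y) 0 = Wz d m A y := by
        unfold Wz L1
        rw [max_eq_right (show ((0 : ℕ) : ℤ) - y ≤ 0 by push_cast; omega)]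
        ring
      rw [h4]
      omega
    · simp only
      rw [e]
      have h3 : x < ⌈(t - s) * (d / 3) + s * y⌉ := by
        rw [Int.lt_ceil]
        exact g4
      omega

end Pool.Agent.H879.Nine
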